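import Pool.Agent.helper33.SP.SpecC1S

/-!
# sp:UJ7: the product rule
-/

namespace TP

open DP MeasureTheory

theorem UJ7_finR (J : ℕ) (w : ℕ → (V → Bool) → ℝ) (h : ∀ j < J, FinR (w j)) :
    FinR (fun b => ∏ j ∈ Finset.range J, (1 - w j b)) := by
  classical
  choose! Λ hΛ using h
  refine ⟨(Finset.range J).biUnion Λ, ?_⟩
  intro b b' hb
  refine Finset.prod_congr rfl fun j hj => ?_
  rw [hΛ j (Finset.mem_range.mp hj) b b' (fun v hv => hb v ?_)]
  rw [Finset.mem_coe, Finset.mem_biUnion]
  exact ⟨j, hj, hv⟩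

theorem UJ7_mx_off (U : Set V) (b b' : V → Bool) (v : V) (hv : v ∉ U) : b v = mx U b b' v := by
  simp [mx, hv]

theorem UJ7_mx_agree (U A : Set V) (b b' b'' : V → Bool) (h : ∀ v, v ∉ A → b v = b' v) (v : V)
    (hv : v ∉ A) : mx U b b'' v = mx U b' b'' v := by
  simp [mx, h v hv]

theorem UJ7 (h5 : UJ5_stmt) (h6 : UJ6_stmt) : UJ7_stmt := by
  intro J
  induction J with
  | zero =>
    intro A g w d _ _ _ _ _ _ _ _ _
    simp [dls]
  | succ J ih =>
    intro A g w d hg hw hd hw01 hwA hdA h0 heq hp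
    have hJ : J < J + 1 := Nat.lt_succ_self J
    have hlt : ∀ {j : ℕ}, j < J → j < J + 1 := fun h => Nat.lt_succ_of_lt h
    have hg' : FinR (dl (A J) g) := (h5.1 (A J) g hg).2.1
    have hih := ih A (dl (A J) g) w d hg' (fun j hj => hw j (hlt hj)) (fun j hj => hd j (hlt hj))
      (fun j hj => hw01 j (hlt hj)) (fun j hj i hi => hwA j (hlt hj) i (hlt hi))
      (fun j hj i hi => hdA j (hlt hj) i (hlt hi)) ?_ ?_ (fun j hj => hp j (hlt hj))
    · have hZ : FinR (fun b => ∏ j ∈ Finset.range J, (1 - w j b)) :=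
        UJ7_finR J w (fun j hj => hw j (hlt hj))
      obtain ⟨Λ, hΛ⟩ := hd J hJ
      have hstep := h6 (A J) g (fun b => ∏ j ∈ Finset.range J, (1 - w j b)) (w J) (d J) Λ hg hZ
        (hw J hJ) hΛ ?_ (hw01 J hJ) ?_ (h0 J hJ) (heq J hJ) (hp J hJ)
      · have e1 : ∫ b, (dls A (J + 1) g b) ^ 2 ∂P1 = ∫ b, (dls A J (dl (A J) g) b) ^ 2 ∂P1 := rfl
        rw [e1]
        refine hih.trans ?_
        have e2 : ∫ b, (dl (A J) g b) ^ 2 * ∏ j ∈ Finset.range J, (1 - w j b) ∂P1 =
            ∫ b, (∏ j ∈ Finset.range J, (1 - w j b)) * (dl (A J) g b) ^ 2 ∂P1 := by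
          congr 1
          funext b
          ring
        have e3 : ∫ b, g b ^ 2 * ∏ j ∈ Finset.range (J + 1), (1 - w j b) ∂P1 =
            ∫ b, (∏ j ∈ Finset.range J, (1 - w j b)) * (1 - w J b) * g b ^ 2 ∂P1 := by
          congr 1
          funext b
          rw [Finset.prod_range_succ]
          ring
        rw [e2, e3]
        exact hstep
      · intro b
        refine Finset.prod_nonneg fun j hj => ?_
        have := (hw01 j (hlt (Finset.mem_range.mp hj)) b).2
        linarith
      · intro b b' hbb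
        refine ⟨?_, hwA J hJ J hJ b b' hbb⟩
        refine Finset.prod_congr rfl fun j hj => ?_
        rw [hwA j (hlt (Finset.mem_range.mp hj)) J hJ b b' hbb]
    · intro j hj b hwj hbd
      have hg0 : g b = 0 := h0 j (hlt hj) b hwj hbd
      have hav : av (A J) g b = 0 := by
        have : ∀ b', g (mx (A J) b b') = 0 := by
          intro b'
          have hoff := UJ7_mx_off (A J) b b'
          refine h0 j (hlt hj) _ ?_ ?_
          · rw [← hwA j (hlt hj) J hJ b (mx (A J) b b') hoff]
            exact hwj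
          · rw [← hdA j (hlt hj) J hJ (by omega) b (mx (A J) b b') hoff]
            exact hbd
        simp [av, this]
      rw [dl, hg0, hav, sub_zero]
    · intro j hj b b' hbb hwj hbd hbd'
      have hg0 : g b = g b' := heq j (hlt hj) b b' hbb hwj hbd hbd'
      have hav : av (A J) g b = av (A J) g b' := by
        have : ∀ b'', g (mx (A J) b b'') = g (mx (A J) b' b'') := by
          intro b''
          refine heq j (hlt hj) _ _ (UJ7_mx_agree (A J) (A j) b b' b'' hbb) ?_ ?_ ?_
          · rw [← hwA j (hlt hj) J hJ b (mx (A J) b b'') (UJ7_mx_off (A J) b b'')]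
            exact hwj
          · rw [← hdA j (hlt hj) J hJ (by omega) b (mx (A J) b b'') (UJ7_mx_off (A J) b b'')]
            exact hbd
          · rw [← hdA j (hlt hj) J hJ (by omega) b' (mx (A J) b' b'') (UJ7_mx_off (A J) b' b'')]
            exact hbd'
        simp [av, this]
      rw [dl, dl, hg0, hav]

end TP
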